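import Pool.Agent.Helper18.RD.Stmts8
import Pool.Agent.Helper54.RD6.SMO

set_option autoImplicit false

namespace Pool.Agent.Helper92.RD8

open Finset Pool.Agent.Helper18.RD Pool.Agent.Helper54.RD6

/-- points of an interval in a class -/
theorem card_class (N R i : ℕ) (hR : 1 ≤ R) (J : Finset ℕ) (hJ : J ⊆ range N) :
    (J.filter (fun j : ℕ => (R : ℤ) ∣ (i : ℤ) - j)).card ≤ N / R + 1 := by
  rw [← card_range (N / R + 1)]
  refine card_le_card_of_injOn (fun j => j / R) ?_ ?_
  · intro j hj
    have hj' := Finset.mem_coe.1 hj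
    rw [mem_filter] at hj'
    have h1 : j < N := mem_range.1 (hJ hj'.1)
    simp only [coe_range, Set.mem_Iio]
    exact Nat.lt_succ_of_le (Nat.div_le_div_right h1.le)
  · intro j hj j' hj' h
    have h1 := (mem_filter.1 (Finset.mem_coe.1 hj)).2
    have h2 := (mem_filter.1 (Finset.mem_coe.1 hj')).2
    have h3 : (R : ℤ) ∣ (j : ℤ) - j' := by
      have := dvd_sub h2 h1
      have e : (i : ℤ) - j' - (i - j) = j - j' := by ring
      rwa [e] at this
    have h4 : j' % R = j % R := by
      have h5 : (j' : ℤ) ≡ j [ZMOD R] := by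
        rw [Int.modEq_iff_dvd]
        exact h3
      have h6 : j' ≡ j [MOD R] := (Int.natCast_modEq_iff).1 h5
      exact h6
    have h7 : j / R = j' / R := h
    rw [← Nat.div_add_mod j R, ← Nat.div_add_mod j' R, h7, h4]

theorem st_SMOR (hB : ST_BILR) : ST_SMOR := by
  intro N z J Q m F G hN hz hJ hQ hco hF hG hdiv
  have hz' : (0 : ℝ) < z := by exact_mod_cast hz
  have hW : (0 : ℝ) ≤ 4 * ((z : ℝ) + N / z) * J.card := by positivity
  have key : ∀ r ∈ Q, ∀ r' ∈ Q, ((∑ i ∈ J, ∑ j ∈ J,
      (jacobiSym (m i + m j) r * F r i * G r j) *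
        (jacobiSym (m i + m j) r' * F r' i * G r' j) : ℤ) : ℝ) ≤
      (if r = r' then (J.card : ℝ) ^ 2 else 0) + 4 * ((z : ℝ) + N / z) * J.card := by
    intro r hr r' hr'
    by_cases hrr : r = r'
    · subst hrr
      rw [if_pos rfl]
      have h1 : ∑ i ∈ J, ∑ j ∈ J, (jacobiSym (m i + m j) r * F r i * G r j) *
          (jacobiSym (m i + m j) r * F r i * G r j) ≤ ∑ i ∈ J, ∑ j ∈ J, (1 : ℤ) := by
        refine sum_le_sum fun i _ => sum_le_sum fun j _ => ?_
        have h : |jacobiSym (m i + m j) r * F r i * G r j| ≤ 1 := by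
          rw [abs_mul, abs_mul]
          exact mul_le_one₀ (mul_le_one₀ (abs_jac _ _) (abs_nonneg _) (hF r i)) (abs_nonneg _)
            (hG r j)
        rw [← abs_mul_abs_self]
        nlinarith [abs_nonneg (jacobiSym (m i + m j) r * F r i * G r j)]
      have h2 : ∑ i ∈ J, ∑ j ∈ J, (1 : ℤ) = (J.card : ℤ) ^ 2 := by
        simp [sq]
      rw [h2] at h1
      have h3 : ((∑ i ∈ J, ∑ j ∈ J, (jacobiSym (m i + m j) r * F r i * G r j) *
          (jacobiSym (m i + m j) r * F r i * G r j) : ℤ) : ℝ) ≤ (((J.card : ℤ) ^ 2 : ℤ) : ℝ) :=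
        Int.cast_le.2 h1
      have h4 : (((J.card : ℤ) ^ 2 : ℤ) : ℝ) = (J.card : ℝ) ^ 2 := by push_cast; rfl
      rw [h4] at h3
      linarith
    · rw [if_neg hrr, zero_add]
      obtain ⟨hs, ho, hle, hlt⟩ := hQ r hr
      obtain ⟨hs', ho', hle', hlt'⟩ := hQ r' hr'
      have hc : Nat.Coprime r r' := hco r hr r' hr' hrr
      have hsq : Squarefree (r * r') := (Nat.squarefree_mul hc).2 ⟨hs, hs'⟩
      have hodd : Odd (r * r') := ho.mul ho'
      have hr0 : NeZero r := ⟨hs.ne_zero⟩
      have hr0' : NeZero r' := ⟨hs'.ne_zero⟩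
      have hR1 : 1 ≤ r * r' := Nat.one_le_iff_ne_zero.2 hsq.ne_zero
      have hb := hB (r * r') J m (fun n => F r n * F r' n) (fun n => G r n * G r' n) hsq hodd
        (fun n => by
          rw [abs_mul]; exact mul_le_one₀ (hF r n) (abs_nonneg _) (hF r' n))
        (fun n => by
          rw [abs_mul]; exact mul_le_one₀ (hG r n) (abs_nonneg _) (hG r' n))
      have he : ∑ i ∈ J, ∑ j ∈ J, (jacobiSym (m i + m j) r * F r i * G r j) *
          (jacobiSym (m i + m j) r' * F r' i * G r' j) =
          ∑ i ∈ J, ∑ j ∈ J, jacobiSym (m i + m j) (r * r') * (F r i * F r' i) *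
            (G r j * G r' j) := by
        refine sum_congr rfl fun i _ => sum_congr rfl fun j _ => ?_
        rw [jacobiSym.mul_right]
        ring
      set c : ℕ := ((J ×ˢ J).filter (fun x => ((r * r' : ℕ) : ℤ) ∣ m x.1 - m x.2)).card with hcdef
      have hcard : c ≤ J.card * (N / (r * r') + 1) := by
        have h1 : c ≤ ∑ i ∈ J, (J.filter (fun j : ℕ => ((r * r' : ℕ) : ℤ) ∣ (i : ℤ) - j)).card := by
          rw [hcdef, Finset.card_filter, sum_product]
          refine sum_le_sum fun i hi => ?_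
          rw [Finset.card_filter]
          refine sum_le_sum fun j hj => ?_
          by_cases hd : ((r * r' : ℕ) : ℤ) ∣ m i - m j
          · rw [if_pos hd, if_pos]
            have e1 : (r : ℤ) ∣ m i - m j := by
              refine dvd_trans ?_ hd
              exact_mod_cast dvd_mul_right r r'
            have e2 : (r' : ℤ) ∣ m i - m j := by
              refine dvd_trans ?_ hd
              exact_mod_cast dvd_mul_left r' r
            have f1 := hdiv i hi j hj r hr e1
            have f2 := hdiv i hi j hj r' hr' e2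
            have hcz : IsCoprime (r : ℤ) (r' : ℤ) := Nat.isCoprime_iff_coprime.2 hc
            have := hcz.mul_dvd f1 f2
            rwa [← Nat.cast_mul] at this
          · rw [if_neg hd]
            exact Nat.zero_le _
        refine h1.trans ?_
        refine (sum_le_sum fun i hi => card_class N (r * r') i hR1 J hJ).trans ?_
        rw [sum_const, smul_eq_mul]
      have hz2 : ((r * r' : ℕ) : ℤ) ≤ (z : ℤ) ^ 2 := by
        rw [sq]
        exact_mod_cast Nat.mul_le_mul hle hle'
      have hint : ∑ i ∈ J, ∑ j ∈ J, (jacobiSym (m i + m j) r * F r i * G r j) *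
          (jacobiSym (m i + m j) r' * F r' i * G r' j) ≤ (z : ℤ) * c := by
        rw [he]
        refine le_of_sq' (by positivity) (hb.trans ?_)
        rw [mul_pow]
        exact mul_le_mul_of_nonneg_right hz2 (by positivity)
      have hreal : ((∑ i ∈ J, ∑ j ∈ J, (jacobiSym (m i + m j) r * F r i * G r j) *
          (jacobiSym (m i + m j) r' * F r' i * G r' j) : ℤ) : ℝ) ≤ (z : ℝ) * c := by
        have := (Int.cast_le (R := ℝ)).2 hint
        refine this.trans (le_of_eq ?_)
        push_cast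
        rfl
      refine hreal.trans ?_
      have hc' : (c : ℝ) ≤ J.card * ((N : ℝ) / (r * r' : ℕ) + 1) := by
        have h1 : (c : ℝ) ≤ ((J.card * (N / (r * r') + 1) : ℕ) : ℝ) := by exact_mod_cast hcard
        refine h1.trans ?_
        push_cast
        have h2 : ((N / (r * r') : ℕ) : ℝ) ≤ (N : ℝ) / (r * r' : ℕ) := Nat.cast_div_le
        push_cast at h2
        have h3 : (0 : ℝ) ≤ J.card := by positivity
        nlinarith
      have hRpos : (0 : ℝ) < (r * r' : ℕ) := by exact_mod_cast hR1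
      have h4 : (z : ℝ) ^ 2 ≤ 4 * (r * r' : ℕ) := by
        have a1 : (z : ℝ) ≤ 2 * r := by exact_mod_cast hlt.le
        have a2 : (z : ℝ) ≤ 2 * r' := by exact_mod_cast hlt'.le
        push_cast
        nlinarith
      have h5 : (z : ℝ) * (N / (r * r' : ℕ)) ≤ 4 * (N / z) := by
        rw [mul_div_assoc', mul_div_assoc', div_le_div_iff₀ hRpos hz']
        have hN0 : (0 : ℝ) ≤ N := by positivity
        nlinarith
      have hJ0 : (0 : ℝ) ≤ J.card := by positivity
      calc (z : ℝ) * c ≤ z * (J.card * ((N : ℝ) / (r * r' : ℕ) + 1)) :=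
            mul_le_mul_of_nonneg_left hc' hz'.le
        _ = J.card * ((z : ℝ) * (N / (r * r' : ℕ)) + z) := by ring
        _ ≤ J.card * (4 * (N / z) + 4 * z) := by
            refine mul_le_mul_of_nonneg_left ?_ hJ0
            linarith
        _ = 4 * ((z : ℝ) + N / z) * J.card := by ring
  have h1 := expand J Q (fun r i j => jacobiSym (m i + m j) r * F r i * G r j)
  rw [h1, Int.cast_sum]
  have h6 : ∀ r ∈ Q, ∑ r' ∈ Q, (if r = r' then (J.card : ℝ) ^ 2 else 0) = (J.card : ℝ) ^ 2 := by
    intro r hr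
    rw [sum_ite_eq, if_pos hr]
  calc ∑ r ∈ Q, ((∑ r' ∈ Q, ∑ i ∈ J, ∑ j ∈ J,
      (jacobiSym (m i + m j) r * F r i * G r j) *
        (jacobiSym (m i + m j) r' * F r' i * G r' j) : ℤ) : ℝ)
      ≤ ∑ r ∈ Q, ∑ r' ∈ Q, ((if r = r' then (J.card : ℝ) ^ 2 else 0) +
          4 * ((z : ℝ) + N / z) * J.card) := by
        refine sum_le_sum fun r hr => ?_
        rw [Int.cast_sum]
        exact sum_le_sum fun r' hr' => key r hr r' hr'
    _ = ∑ r ∈ Q, ((J.card : ℝ) ^ 2 + Q.card * (4 * ((z : ℝ) + N / z) * J.card)) := by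
        refine sum_congr rfl fun r hr => ?_
        rw [sum_add_distrib, h6 r hr, sum_const, nsmul_eq_mul]
    _ = (Q.card : ℝ) * J.card ^ 2 + 4 * ((z : ℝ) + N / z) * Q.card ^ 2 * J.card := by
        rw [sum_const, nsmul_eq_mul]
        ring

end Pool.Agent.Helper92.RD8
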